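import Pool.Agent.LCK.Stmts

/-!
# LCK, row LPC
-/

set_option autoImplicit false

open Topology Filter

namespace Pool.Agent.LCK.H32

open Pool.Agent.LCK

/-- the chain with a given first vertex and given link vectors -/
noncomputable def ch {n : ℕ} (x : E3) (u : Fin n → E3) (k : Fin (n + 1)) : E3 :=
  x + ∑ j : Fin n, if (j : ℕ) < (k : ℕ) then u j else 0

theorem ch_zero {n : ℕ} (x : E3) (u : Fin n → E3) : ch x u 0 = x := by
  simp [ch]

theorem ch_diff {n : ℕ} (x : E3) (u : Fin n → E3) (k : Fin n) :
    ch x u k.succ - ch x u k.castSucc = u k := by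
  unfold ch
  rw [add_sub_add_left_eq_sub, ← Finset.sum_sub_distrib, Finset.sum_eq_single k]
  · simp
  · intro j _ hj
    have hj' : (j : ℕ) ≠ (k : ℕ) := fun h => hj (Fin.ext h)
    by_cases h : (j : ℕ) < (k : ℕ)
    · rw [if_pos (by simp; omega), if_pos (by simpa using h), sub_self]
    · rw [if_neg (by simp; omega), if_neg (by simpa using h), sub_self]
  · intro h; exact absurd (Finset.mem_univ k) h

theorem chain_ext {n : ℕ} {a b : Fin (n + 1) → E3} (h0 : a 0 = b 0)
    (h : ∀ k : Fin n, a k.succ - a k.castSucc = b k.succ - b k.castSucc) : a = b := by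
  funext k
  refine Fin.induction h0 (fun i hi => ?_) k
  have h1 := h i
  rw [hi] at h1
  exact sub_left_injective h1

theorem ch_continuousAt {n : ℕ} {α : Type} [TopologicalSpace α] {x : α → E3} {u : α → Fin n → E3}
    {a : α} (hx : ContinuousAt x a) (hu : ∀ k, ContinuousAt (fun z => u z k) a) :
    ContinuousAt (fun z => ch (x z) (u z)) a := by
  unfold ch
  refine continuousAt_pi.2 fun k => ?_
  refine hx.add ?_
  refine tendsto_finsetSum _ fun j _ => ?_
  by_cases h : (j : ℕ) < (k : ℕ)
  · simp only [h, if_true]; exact hu j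
  · simp only [h, if_false]; exact tendsto_const_nhds

theorem lpc (opn : OPNStmt) : LPCStmt := by
  intro n l hl hpre c hc c' hc'
  refine hpre.induction₂ (fun a b => JoinedIn (Conf l) a b) ?_ ?_ ?_ hc hc'
  · intro c hc
    -- interpolation
    let z : (Fin (n + 1) → E3) × ℝ → Fin n → E3 := fun p k =>
      (1 - p.2) • (c k.succ - c k.castSucc) + p.2 • (p.1 k.succ - p.1 k.castSucc)
    let x : (Fin (n + 1) → E3) × ℝ → E3 := fun p => (1 - p.2) • c 0 + p.2 • p.1 0
    let Φ : (Fin (n + 1) → E3) × ℝ → Fin (n + 1) → E3 := fun p =>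
      ch (x p) (fun k => (l k / ‖z p k‖) • z p k)
    have hnorm : ∀ v : Fin (n + 1) → E3, v ∈ Conf l → ∀ k : Fin n,
        ‖v k.succ - v k.castSucc‖ = l k := by
      intro v hv k
      rw [← dist_eq_norm, dist_comm]; exact hv.1 k
    have hz : Continuous z := by
      refine continuous_pi fun k => ?_
      have h1 : Continuous fun p : (Fin (n + 1) → E3) × ℝ => p.1 k.succ :=
        (continuous_apply _).comp continuous_fst
      have h2 : Continuous fun p : (Fin (n + 1) → E3) × ℝ => p.1 k.castSucc :=
        (continuous_apply _).comp continuous_fst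
      exact ((continuous_const.sub continuous_snd).smul continuous_const).add
        (continuous_snd.smul (h1.sub h2))
    have hx : Continuous x := by
      have h1 : Continuous fun p : (Fin (n + 1) → E3) × ℝ => p.1 0 :=
        (continuous_apply _).comp continuous_fst
      exact ((continuous_const.sub continuous_snd).smul continuous_const).add
        (continuous_snd.smul h1)
    have hΦ : ∀ p, (∀ k, z p k ≠ 0) → ContinuousAt Φ p := by
      intro p hp
      refine ch_continuousAt hx.continuousAt fun k => ?_
      have h1 : ContinuousAt (fun p => z p k) p := ((continuous_apply k).comp hz).continuousAt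
      exact (ContinuousAt.div continuousAt_const h1.norm (norm_ne_zero_iff.2 (hp k))).smul h1
    have hzc : ∀ s : ℝ, ∀ k, z (c, s) k = c k.succ - c k.castSucc := by
      intro s k
      simp only [z]
      module
    have hΦ1 : ∀ v ∈ Conf l, Φ (v, 1) = v := by
      intro v hv
      refine chain_ext ?_ fun k => ?_
      · simp only [Φ]
        rw [ch_zero]
        simp [x]
      · simp only [Φ]
        rw [ch_diff]
        have h1 : z (v, 1) k = v k.succ - v k.castSucc := by
          simp [z]
        rw [h1, hnorm v hv k, div_self (hl k).ne', one_smul]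
    have hΦ0 : ∀ v, Φ (v, 0) = c := by
      intro v
      refine chain_ext ?_ fun k => ?_
      · simp only [Φ]
        rw [ch_zero]
        simp [x]
      · simp only [Φ]
        rw [ch_diff]
        have h1 : z (v, 0) k = c k.succ - c k.castSucc := by
          simp [z]
        rw [h1, hnorm c hc k, div_self (hl k).ne', one_smul]
    have hΦc : ∀ s : ℝ, Φ (c, s) = c := by
      intro s
      refine chain_ext ?_ fun k => ?_
      · simp only [Φ]
        rw [ch_zero]
        simp only [x]
        module
      · simp only [Φ]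
        rw [ch_diff, hzc, hnorm c hc k, div_self (hl k).ne', one_smul]
    have hzc0 : ∀ s : ℝ, ∀ k, z (c, s) k ≠ 0 := by
      intro s k h
      rw [hzc] at h
      have := hnorm c hc k
      rw [h, norm_zero] at this
      exact (hl k).ne this
    have hopn := opn n c hc.2 (fun k h => by
      have := hc.1 k
      rw [h, dist_self] at this
      exact (hl k).ne this)
    have key : ∀ᶠ v in 𝓝 c, ∀ s ∈ Set.Icc (0 : ℝ) 1, (∀ k, z (v, s) k ≠ 0) ∧ Simple (Φ (v, s)) := by
      refine isCompact_Icc.eventually_forall_of_forall_eventually ?_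
      intro s _
      have h1 : ∀ᶠ p in 𝓝 (c, s), ∀ k, z p k ≠ 0 := by
        rw [eventually_all]
        intro k
        exact ((continuous_apply k).comp hz).continuousAt.eventually_ne (hzc0 s k)
      have h2 : ∀ᶠ p in 𝓝 (c, s), Simple (Φ p) := by
        have h3 := hΦ (c, s) (hzc0 s)
        unfold ContinuousAt at h3
        rw [hΦc] at h3
        exact h3.eventually hopn
      exact h1.and h2
    refine eventually_nhdsWithin_iff.2 ?_
    filter_upwards [key] with v hv hvc
    refine JoinedIn.ofLine (f := fun s => Φ (v, s)) ?_ (hΦ0 v) (hΦ1 v hvc) ?_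
    · intro s hs
      have h1 := hΦ (v, s) (hv s hs).1
      have h2 : ContinuousAt (fun s : ℝ => (v, s)) s := by fun_prop
      exact (ContinuousAt.comp (g := Φ) (f := fun s : ℝ => (v, s)) h1 h2).continuousWithinAt
    · rintro _ ⟨s, hs, rfl⟩
      refine ⟨fun k => ?_, (hv s hs).2⟩
      rw [dist_comm, dist_eq_norm]
      simp only [Φ]
      rw [ch_diff, norm_smul, norm_div, norm_norm, Real.norm_of_nonneg (hl k).le]
      exact div_mul_cancel₀ _ (norm_ne_zero_iff.2 ((hv s hs).1 k))
  · intro a b c _ _ _ h1 h2
    exact h1.trans h2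
  · intro a b _ _ h
    exact h.symm

end Pool.Agent.LCK.H32
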