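import Pool.Agent.LCK.Stmts

/-!
# LCK, row SNC
-/

set_option autoImplicit false

open Topology

namespace Pool.Agent.LCK.H32

open Pool.Agent.LCK

theorem av_castSucc {n : ℕ} (c : Fin (n + 1) → E3) (x : E3) (k : Fin (n + 1)) :
    av c x k.castSucc = c k := by
  unfold av
  exact Fin.snoc_castSucc (α := fun _ => E3) x c k

theorem av_last {n : ℕ} (c : Fin (n + 1) → E3) (x : E3) :
    av c x (Fin.last (n + 1)) = x := by
  unfold av
  exact Fin.snoc_last (α := fun _ => E3) x c

theorem ap_castSucc {n : ℕ} (l : Fin n → ℝ) (e : ℝ) (k : Fin n) :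
    ap l e k.castSucc = l k := by
  unfold ap
  exact Fin.snoc_castSucc (α := fun _ => ℝ) e l k

theorem ap_last {n : ℕ} (l : Fin n → ℝ) (e : ℝ) :
    ap l e (Fin.last n) = e := by
  unfold ap
  exact Fin.snoc_last (α := fun _ => ℝ) e l

theorem av_succ {n : ℕ} (c : Fin (n + 1) → E3) (x : E3) (k : Fin n) :
    av c x k.castSucc.succ = c k.succ := by
  rw [Fin.succ_castSucc, av_castSucc]

theorem av_succ_last {n : ℕ} (c : Fin (n + 1) → E3) (x : E3) :
    av c x (Fin.last n).succ = x := by
  rw [Fin.succ_last, av_last]

theorem snc : SNCStmt := by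
  intro n
  refine ⟨?_, ?_, ?_, ?_⟩
  · intro l e c x
    constructor
    · rintro ⟨hd, hs⟩
      refine ⟨⟨fun k => ?_, fun i j hij => ?_⟩, ?_, fun i => ?_⟩
      · have := hd k.castSucc
        rwa [av_castSucc, av_succ, ap_castSucc] at this
      · have := hs i.castSucc j.castSucc (by simpa using hij)
        rw [av_castSucc, av_castSucc, av_succ, av_succ] at this
        rw [this]
        simp
      · have := hd (Fin.last n)
        rwa [av_castSucc, av_succ_last, ap_last] at this
      · have := hs i.castSucc (Fin.last n) (Fin.castSucc_lt_last i)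
        rw [av_castSucc, av_castSucc, av_succ, av_succ_last] at this
        rw [this]
        by_cases h : (i : ℕ) + 1 = n
        · have h1 : i.succ = Fin.last n := by
            apply Fin.ext
            simpa using h
          rw [if_pos h, if_pos (by simp [h]), h1]
        · rw [if_neg h, if_neg (by simp; omega)]
    · rintro ⟨⟨hd, hs⟩, he, hok⟩
      refine ⟨fun k => ?_, fun i j hij => ?_⟩
      · refine Fin.lastCases ?_ (fun k => ?_) k
        · rw [av_castSucc, av_succ_last, ap_last]; exact he
        · rw [av_castSucc, av_succ, ap_castSucc]; exact hd k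
      · revert hij
        refine Fin.lastCases ?_ (fun j => ?_) j
        · intro hij
          obtain ⟨i', rfl⟩ := Fin.exists_castSucc_eq.2 (ne_of_lt hij)
          rw [av_castSucc, av_castSucc, av_succ, av_succ_last, hok i']
          by_cases h : (i' : ℕ) + 1 = n
          · have h1 : i'.succ = Fin.last n := by
              apply Fin.ext
              simpa using h
            rw [if_pos h, if_pos (by simp [h]), h1]
          · rw [if_neg h, if_neg (by simp; omega)]
        · intro hij
          obtain ⟨i', rfl⟩ := Fin.exists_castSucc_eq.2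
            (ne_of_lt (hij.trans (Fin.castSucc_lt_last j)))
          rw [av_castSucc, av_castSucc, av_succ, av_succ, hs i' j (by simpa using hij)]
          simp
  · intro v
    funext k
    refine Fin.lastCases ?_ (fun k => ?_) k
    · rw [av_last]
    · rw [av_castSucc]
  · refine continuous_pi fun k => ?_
    refine Fin.lastCases ?_ (fun k => ?_) k
    · simp only [av_last]
      exact continuous_snd
    · simp only [av_castSucc]
      exact (continuous_apply k).comp continuous_fst
  · intro c w r hr0 hr1 hok i
    have hsub : segment ℝ (c (Fin.last n)) (c (Fin.last n) + r • w) ⊆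
        segment ℝ (c (Fin.last n)) (c (Fin.last n) + w) := by
      refine (convex_segment _ _).segment_subset (left_mem_segment ℝ _ _) ?_
      rw [segment_eq_image']
      exact ⟨r, ⟨hr0, hr1⟩, by simp⟩
    have h := hok i
    by_cases hi : (i : ℕ) + 1 = n
    · rw [if_pos hi] at h ⊢
      refine Set.Subset.antisymm ?_ ?_
      · rw [← h]
        exact Set.inter_subset_inter_right _ hsub
      · rintro y rfl
        have h1 : c (Fin.last n) ∈ segment ℝ (c i.castSucc) (c i.succ) ∩
            segment ℝ (c (Fin.last n)) (c (Fin.last n) + w) := by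
          rw [h]; rfl
        exact ⟨h1.1, left_mem_segment ℝ _ _⟩
    · rw [if_neg hi] at h ⊢
      rw [← Set.subset_empty_iff, ← h]
      exact Set.inter_subset_inter_right _ hsub

end Pool.Agent.LCK.H32
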